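import Pool.Agent.H482R3.EA.Stm

set_option autoImplicit false

/-! Project EA (helper482): task VAL, valuation. -/

namespace Pool.Agent.H755R.EA

open Pool.Agent.H482R3.EA Pool.Agent.H482R3.EA.NF

/-- the valuation of raw normal forms -/
def vv {S : Sys} {K : Type} [Group K] (φ : (l : S.Ln) → S.L l →* K) (X : S.P → K) : NF S → K
  | .one => 1
  | .pt h p n => vv φ X h * X p ^ n
  | .ln h l y => vv φ X h * φ l y

section

variable {S : Sys} {K : Type} [Group K] (φ : (l : S.Ln) → S.L l →* K) (X : S.P → K)

theorem vv_att (hφ : ∀ l p, S.I p l → φ l (S.x l p) = X p) (h : NF S) (l : S.Ln) (y : S.L l) :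
    vv φ X (att h l y) = vv φ X h * φ l y := by
  unfold att
  split_ifs with h1 H
  · rw [h1, map_one, mul_one]
  · have hs := H.choose_spec.choose_spec
    show vv φ X h * X H.choose ^ H.choose_spec.choose = _
    rw [← hφ l _ hs.1, ← map_zpow, ← hs.2]
  · rfl

theorem vv_attM (hφ : ∀ l p, S.I p l → φ l (S.x l p) = X p) (v0 : K) (f : ℤ → NF S) (q : S.P)
    (l : S.Ln) (y : S.L l) (hq : S.I q l) (hf : ∀ a, vv φ X (f a) = v0 * X q ^ a) :
    vv φ X (attM f q l y) = v0 * φ l y := by
  have hy := (exists_cf S l q y).choose_spec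
  change y = S.x l q ^ (cf S l q y) * rep S l q y at hy
  have hφy : φ l y = X q ^ (cf S l q y) * φ l (rep S l q y) := by
    conv_lhs => rw [hy]
    rw [map_mul, map_zpow, hφ l q hq]
  unfold attM
  simp only
  split_ifs with h1 H
  · rw [hf, hφy, h1, map_one, mul_one]
  · have hs := H.choose_spec.choose_spec.choose_spec
    show vv φ X (f (cf S l q y + H.choose_spec.choose)) *
      X H.choose ^ H.choose_spec.choose_spec.choose = _
    have ht : φ l (rep S l q y) = X q ^ H.choose_spec.choose *
        X H.choose ^ H.choose_spec.choose_spec.choose := by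
      conv_lhs => rw [hs.2.2]
      rw [map_mul, map_zpow, map_zpow, hφ l q hq, hφ l _ hs.1]
    rw [hf, hφy, ht, zpow_add]
    simp only [mul_assoc]
  · show vv φ X (f (cf S l q y)) * φ l (rep S l q y) = _
    rw [hf, hφy, mul_assoc]

theorem vv_up (hφ : ∀ l p, S.I p l → φ l (S.x l p) = X p) (h : NF S) :
    ∀ (l : S.Ln) (y : S.L l), vv φ X (up h l y) = vv φ X h * φ l y := by
  induction h with
  | one =>
    intro l y
    unfold up
    exact vv_att φ X hφ _ l y
  | pt h p n ih =>
    intro l y
    unfold up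
    split_ifs with H
    · refine vv_attM φ X hφ _ _ _ l y H.choose_spec.choose_spec.1 ?_
      intro a
      have hs := H.choose_spec.choose_spec
      rw [ih, map_mul, map_zpow, map_zpow, hφ _ _ hs.2.1, hφ _ _ hs.2.2, ← mul_assoc]
      rfl
    · exact vv_att φ X hφ _ l y
  | ln h m t ih =>
    intro l y
    unfold up
    split_ifs with H
    · refine vv_attM φ X hφ _ _ _ l y H.choose_spec.1 ?_
      intro a
      have hs := H.choose_spec
      rw [ih, map_mul, map_zpow, hφ _ _ hs.2, ← mul_assoc]
      rfl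
    · exact vv_att φ X hφ _ l y

theorem vv_act (hφ : ∀ l p, S.I p l → φ l (S.x l p) = X p) (h : NF S) (l : S.Ln) (y : S.L l) :
    vv φ X (act h l y) = vv φ X h * φ l y := by
  cases h with
  | one =>
    unfold act
    exact vv_up φ X hφ _ l y
  | pt h p n =>
    unfold act
    simp only
    split_ifs with H
    · rw [vv_up φ X hφ, map_mul, map_zpow, hφ _ _ H, ← mul_assoc]
      rfl
    · exact vv_up φ X hφ _ l y
  | ln h m t =>
    unfold act
    simp only
    split_ifs with e
    · subst e
      rw [vv_up φ X hφ, map_mul, ← mul_assoc]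
      rfl
    · exact vv_up φ X hφ _ l y

end

theorem t_VAL : S_VAL := by
  intro S K _ φ X hφ
  exact ⟨vv φ X, rfl, fun h l y => vv_act φ X hφ h l y⟩

end Pool.Agent.H755R.EA
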