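import Pool.Agent.H482R3.EA.Stm

set_option autoImplicit false

/-! Project EA (helper482): task XS, shift automorphism. -/

namespace Pool.Agent.H755R.EA

open Pool.Agent.H482R3.EA

theorem xs_shift (hX : S_XX) (k : ℕ) (d : ℤ) (hk : 0 < k) (i : ℤ) :
    FreeGroup.lift (fun r : Fin k => xx k (d + (r : ℕ))) (xx k i) = xx k (i + d) := by
  obtain ⟨h1, h2, h3⟩ := hX k hk
  set σ := FreeGroup.lift (fun r : Fin k => xx k (d + (r : ℕ))) with hσ
  have hP : σ (PP k) = PP k := by
    have : σ (PP k) = (List.ofFn fun r : Fin k => xx k (d + (r : ℕ))).prod := by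
      unfold PP
      rw [map_list_prod, List.map_ofFn]
      congr 1
      congr 1
      funext r
      simp [hσ]
    rw [this, h2 d]
  have hbase : ∀ r : Fin k, σ (xx k ((r : ℕ) : ℤ)) = xx k (((r : ℕ) : ℤ) + d) := by
    intro r
    rw [h3 r, hσ, FreeGroup.lift_apply_of, add_comm]
  have hstep : ∀ i : ℤ, σ (xx k i) = xx k (i + d) → σ (xx k (i + k)) = xx k (i + k + d) := by
    intro i hi
    rw [h1 i, map_mul, map_mul, map_inv, hP, hi, ← h1 (i + d)]
    congr 1
    ring
  have hstep' : ∀ i : ℤ, σ (xx k (i + k)) = xx k (i + k + d) → σ (xx k i) = xx k (i + d) := by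
    intro i hi
    have e : i + k + d = (i + d) + k := by ring
    rw [h1 i, map_mul, map_mul, map_inv, hP, e, h1 (i + d)] at hi
    exact mul_left_cancel (mul_right_cancel hi)
  have hk' : (0 : ℤ) < k := by exact_mod_cast hk
  have key : ∀ (j : ℤ) (r : Fin k), σ (xx k (((r : ℕ) : ℤ) + k * j)) =
      xx k (((r : ℕ) : ℤ) + k * j + d) := by
    intro j r
    induction j using Int.induction_on with
    | zero => simpa using hbase r
    | succ n ih =>
      have := hstep _ ih
      have e : ((r : ℕ) : ℤ) + k * (n : ℤ) + k = ((r : ℕ) : ℤ) + k * ((n : ℤ) + 1) := by ring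
      rw [e] at this
      exact this
    | pred n ih =>
      apply hstep'
      have e : ((r : ℕ) : ℤ) + k * (-(n : ℤ) - 1) + k = ((r : ℕ) : ℤ) + k * (-(n : ℤ)) := by ring
      rw [e]
      exact ih
  have h0 := Int.emod_nonneg i (b := (k : ℤ)) (by omega)
  have h4 := Int.emod_lt_of_pos i (b := (k : ℤ)) (by omega)
  have := key (i / k) ⟨(i % (k : ℤ)).toNat, by omega⟩
  have e : (((i % (k : ℤ)).toNat : ℕ) : ℤ) + k * (i / k) = i := by
    rw [Int.toNat_of_nonneg h0]
    exact Int.emod_add_mul_ediv i k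
  simp only [e] at this
  exact this

theorem t_XS (hX : S_XX) : S_XS := by
  intro k d hk
  obtain ⟨h1, h2, h3⟩ := hX k hk
  have inv : ∀ e : ℤ, (FreeGroup.lift (fun r : Fin k => xx k (-e + (r : ℕ)))).comp
      (FreeGroup.lift (fun r : Fin k => xx k (e + (r : ℕ)))) = MonoidHom.id _ := by
    intro e
    apply FreeGroup.ext_hom
    intro r
    rw [MonoidHom.comp_apply, FreeGroup.lift_apply_of, xs_shift hX k (-e) hk, MonoidHom.id_apply,
      ← h3 r]
    congr 1
    ring
  refine ⟨MonoidHom.toMulEquiv (FreeGroup.lift (fun r : Fin k => xx k (d + (r : ℕ))))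
    (FreeGroup.lift (fun r : Fin k => xx k (-d + (r : ℕ)))) (inv d) ?_, ?_⟩
  · have := inv (-d)
    rw [neg_neg] at this
    exact this
  · intro i
    exact xs_shift hX k d hk i

end Pool.Agent.H755R.EA
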